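import Pool.Agent.helper66.LIN.Spec

set_option autoImplicit false

/-!
# Row lin:NCF
-/

namespace LSH.Lin

theorem NCF (hNSG : NSG_stmt) (hVLM : VLM_stmt) (hNVC : NVC_stmt) (hNCN : NCN_stmt)
    (hNPT : NPT_stmt) (hGTF : GTF_stmt) : NCF_stmt := by
  intro P L₀ σ X u t up x₁ q G h
  obtain ⟨hn1, -, hn3, hn4⟩ := hNSG P L₀ σ X u t up x₁ q G h
  obtain ⟨hv1, -⟩ := hVLM P L₀ σ X u t up x₁ q G h
  obtain ⟨hc1, hc2⟩ := hNVC P L₀ σ X u t up x₁ q G h
  obtain ⟨-, -, hg3, hg4, -⟩ := hGTF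
  refine ⟨h.cfg.gen, ?_, ?_, ?_, hc1, hc2, fun y => (hn4 y).2,
    hNCN P L₀ σ X u t up x₁ q G h, hNPT P L₀ σ X u t up x₁ q G h⟩
  · rw [Multiset.map_add, Multiset.nodup_add]
    refine ⟨?_, hg4 G h.gad.nodup, ?_⟩
    · have h1 := h.cfg.nd
      rw [Multiset.map_cons, Multiset.nodup_cons] at h1
      exact h1.2
    · rw [Multiset.disjoint_left]
      intro a ha hb
      obtain ⟨i, hi, rfl⟩ := Multiset.mem_map.1 ha
      obtain ⟨j, hj, hji⟩ := Multiset.mem_map.1 hb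
      exact (hv1 i hi).2.1 j hj hji.symm
  · intro i hi
    rcases Multiset.mem_add.1 hi with hi | hi
    · exact h.cfg.mem i (Multiset.mem_cons_of_mem hi)
    · have h1 := h.gad.pts i.1 (hg3 G i hi)
      classical
      simp only [avs, Finset.mem_filter] at h1
      exact h1.1
  · intro i hi
    rcases Multiset.mem_add.1 hi with hi | hi
    · rw [hn3 _ (hv1 i hi).2.2]
      exact h.cfg.live i (Multiset.mem_cons_of_mem hi)
    · exact hn1 i hi

end LSH.Lin
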