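import Pool.Agent.helper66.LIN.Spec

set_option autoImplicit false

/-!
# Row lin:WTB
-/

namespace LSH.Lin

/-- number of the branching vertices with `j ≤ pl - 1` -/
def WTB_c (j : ℕ) : BT → ℕ
  | .leaf => 0
  | .un t => WTB_c j t
  | .br s t => WTB_c j s + WTB_c j t + (if j ≤ (BT.br s t).pl - 1 then 1 else 0)

theorem WTB_pl (t : BT) : 1 ≤ t.pl := by
  cases t with
  | leaf => simp [BT.pl]
  | un t => simp [BT.pl]
  | br s t =>
    simp only [BT.pl]
    split_ifs <;> omega

theorem WTB_lv (t : BT) : 1 ≤ t.lv := by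
  induction t with
  | leaf => simp [BT.lv]
  | un t ih => simpa [BT.lv] using ih
  | br s t ihs iht => simp only [BT.lv]; omega

theorem WTB_pls (t : BT) : t.pl ≤ t.size := by
  induction t with
  | leaf => simp [BT.pl, BT.size]
  | un t ih => simp [BT.pl, BT.size]
  | br s t ihs iht =>
    simp only [BT.pl, BT.size]
    split_ifs <;> omega

theorem WTB_br (s t : BT) (i : ℕ) (hs : i ≤ s.pl - 1 → 2 ^ i ≤ s.lv)
    (ht : i ≤ t.pl - 1 → 2 ^ i ≤ t.lv) (h : i + 1 ≤ (BT.br s t).pl - 1) :
    2 ^ i ≤ s.lv ∧ 2 ^ i ≤ t.lv := by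
  simp only [BT.pl] at h
  have h1 := WTB_pl s
  have h2 := WTB_pl t
  by_cases hst : s.lv ≤ t.lv
  · rw [if_pos hst] at h
    have h3 := hs (by omega)
    exact ⟨h3, h3.trans hst⟩
  · rw [if_neg hst] at h
    have h3 := ht (by omega)
    exact ⟨h3.trans (by omega), h3⟩

theorem WTB_one (t : BT) : ∀ j, j ≤ t.pl - 1 → 2 ^ j ≤ t.lv := by
  induction t with
  | leaf =>
    intro j hj
    have : j = 0 := by simpa [BT.pl] using hj
    rw [this]
    simp [BT.lv]
  | un t ih =>
    intro j hj
    have : j = 0 := by simpa [BT.pl] using hj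
    rw [this]
    simpa [BT.lv] using WTB_lv t
  | br s t ihs iht =>
    intro j hj
    cases j with
    | zero => simpa using WTB_lv (BT.br s t)
    | succ i =>
      obtain ⟨h1, h2⟩ := WTB_br s t i (ihs i) (iht i) hj
      rw [pow_succ]
      simp only [BT.lv]
      omega

theorem WTB_two (i : ℕ) (t : BT) : WTB_c (i + 1) t = 0 ∨ (WTB_c (i + 1) t + 1) * 2 ^ i ≤ t.lv := by
  induction t with
  | leaf => exact Or.inl rfl
  | un t ih => exact ih
  | br s t ihs iht =>
    simp only [WTB_c, BT.lv]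
    by_cases h : i + 1 ≤ (BT.br s t).pl - 1
    · rw [if_pos h]
      right
      obtain ⟨h1, h2⟩ := WTB_br s t i (WTB_one s i) (WTB_one t i) h
      have h3 : (WTB_c (i + 1) s + 1) * 2 ^ i ≤ s.lv := by
        rcases ihs with h3 | h3
        · rw [h3]; simpa using h1
        · exact h3
      have h4 : (WTB_c (i + 1) t + 1) * 2 ^ i ≤ t.lv := by
        rcases iht with h4 | h4
        · rw [h4]; simpa using h2
        · exact h4
      calc (WTB_c (i + 1) s + WTB_c (i + 1) t + 1 + 1) * 2 ^ i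
          = (WTB_c (i + 1) s + 1) * 2 ^ i + (WTB_c (i + 1) t + 1) * 2 ^ i := by ring
        _ ≤ s.lv + t.lv := Nat.add_le_add h3 h4
    · rw [if_neg h]
      rcases ihs with h3 | h3
      · rcases iht with h4 | h4
        · left
          rw [h3, h4]
        · right
          rw [h3]
          have : (0 + WTB_c (i + 1) t + 0 + 1) * 2 ^ i = (WTB_c (i + 1) t + 1) * 2 ^ i := by ring
          rw [this]
          omega
      · rcases iht with h4 | h4
        · right
          rw [h4]
          have : (WTB_c (i + 1) s + 0 + 0 + 1) * 2 ^ i = (WTB_c (i + 1) s + 1) * 2 ^ i := by ring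
          rw [this]
          omega
        · right
          have h5 : (WTB_c (i + 1) s + WTB_c (i + 1) t + 0 + 1) * 2 ^ i ≤
              (WTB_c (i + 1) s + 1) * 2 ^ i + (WTB_c (i + 1) t + 1) * 2 ^ i := by
            have : (WTB_c (i + 1) s + 1) * 2 ^ i + (WTB_c (i + 1) t + 1) * 2 ^ i =
              (WTB_c (i + 1) s + WTB_c (i + 1) t + 0 + 1) * 2 ^ i + 2 ^ i := by ring
            rw [this]
            exact Nat.le_add_right _ _
          exact h5.trans (Nat.add_le_add h3 h4)

theorem WTB_sq (q K : ℕ) (h : q ≤ K) :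
    q * q = ∑ j ∈ Finset.range K, (2 * j + 1) * (if j + 1 ≤ q then 1 else 0) := by
  induction K with
  | zero =>
    have : q = 0 := by omega
    rw [this]
    simp
  | succ K ih =>
    rw [Finset.sum_range_succ]
    rcases Nat.lt_or_ge K q with h1 | h1
    · have hq : q = K + 1 := by omega
      rw [if_pos (by omega), mul_one]
      have h2 : ∀ j ∈ Finset.range K, (2 * j + 1) * (if j + 1 ≤ q then 1 else 0) = 2 * j + 1 := by
        intro j hj
        rw [if_pos (by have := Finset.mem_range.1 hj; omega), mul_one]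
      rw [Finset.sum_congr rfl h2, hq]
      have h3 : ∀ n : ℕ, ∑ j ∈ Finset.range n, (2 * j + 1) = n * n := by
        intro n
        induction n with
        | zero => simp
        | succ n ihn => rw [Finset.sum_range_succ, ihn]; ring
      rw [h3]
      ring
    · rw [if_neg (by omega), mul_zero, add_zero]
      exact ih h1

theorem WTB_three (t : BT) : ∀ K, t.size ≤ K →
    t.wt = t.size + 2 * ∑ j ∈ Finset.range K, (2 * j + 1) * WTB_c (j + 1) t := by
  induction t with
  | leaf =>
    intro K _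
    simp [BT.wt, BT.size, WTB_c]
  | un t ih =>
    intro K hK
    simp only [BT.size] at hK
    have := ih K (by omega)
    simp only [BT.wt, BT.size, WTB_c]
    omega
  | br s t ihs iht =>
    intro K hK
    have hpl := WTB_pls (BT.br s t)
    have h0 : (BT.br s t).size = s.size + t.size + 1 := rfl
    have h1 := ihs K (by omega)
    have h2 := iht K (by omega)
    have h3 := WTB_sq ((BT.br s t).pl - 1) K (by omega)
    have h4 : (BT.br s t).wt = 2 * (BT.br s t).mm - 1 + s.wt + t.wt := rfl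
    have h5 : (BT.br s t).mm = ((BT.br s t).pl - 1) * ((BT.br s t).pl - 1) + 1 := rfl
    have h6 : ∑ j ∈ Finset.range K, (2 * j + 1) * WTB_c (j + 1) (BT.br s t) =
        ∑ j ∈ Finset.range K, (2 * j + 1) * WTB_c (j + 1) s +
        ∑ j ∈ Finset.range K, (2 * j + 1) * WTB_c (j + 1) t +
        ∑ j ∈ Finset.range K, (2 * j + 1) * (if j + 1 ≤ (BT.br s t).pl - 1 then 1 else 0) := by
      rw [← Finset.sum_add_distrib, ← Finset.sum_add_distrib]
      refine Finset.sum_congr rfl fun j _ => ?_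
      simp only [WTB_c]
      ring
    rw [h4, h5, h6, ← h3, h0]
    omega

theorem WTB_geo (K : ℕ) : ∑ j ∈ Finset.range K, (2 * (j : ℝ) + 1) / 2 ^ j ≤ 6 := by
  have h : ∑ j ∈ Finset.range K, (2 * (j : ℝ) + 1) / 2 ^ j = 6 - (4 * K + 6) / 2 ^ K := by
    induction K with
    | zero => norm_num
    | succ K ih =>
      rw [Finset.sum_range_succ, ih, pow_succ]
      have : (2 : ℝ) ^ K ≠ 0 := by positivity
      push_cast
      field_simp
      ring
  rw [h]
  have : 0 ≤ (4 * (K : ℝ) + 6) / 2 ^ K := by positivity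
  linarith

theorem WTB : WTB_stmt := by
  intro t
  have h := WTB_three t t.size le_rfl
  have hlv := WTB_lv t
  have h1 : ∀ j ∈ Finset.range t.size, (2 * (j : ℝ) + 1) * (WTB_c (j + 1) t : ℝ) ≤
      ((t.lv : ℝ) - 1) * ((2 * (j : ℝ) + 1) / 2 ^ j) := by
    intro j _
    have h2 : WTB_c (j + 1) t * 2 ^ j + 1 ≤ t.lv := by
      rcases WTB_two j t with h3 | h3
      · rw [h3]
        omega
      · have h4 : (WTB_c (j + 1) t + 1) * 2 ^ j = WTB_c (j + 1) t * 2 ^ j + 2 ^ j := by ring
        have h5 : 1 ≤ 2 ^ j := Nat.one_le_two_pow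
        omega
    have h3 : (WTB_c (j + 1) t : ℝ) * 2 ^ j + 1 ≤ t.lv := by exact_mod_cast h2
    have h4 : (WTB_c (j + 1) t : ℝ) ≤ ((t.lv : ℝ) - 1) / 2 ^ j := by
      rw [le_div_iff₀ (by positivity)]
      linarith
    calc (2 * (j : ℝ) + 1) * (WTB_c (j + 1) t : ℝ)
        ≤ (2 * (j : ℝ) + 1) * (((t.lv : ℝ) - 1) / 2 ^ j) :=
          mul_le_mul_of_nonneg_left h4 (by positivity)
      _ = _ := by ring
  have h2 := Finset.sum_le_sum h1
  rw [← Finset.mul_sum] at h2
  have h3 : (0 : ℝ) ≤ (t.lv : ℝ) - 1 := by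
    have : (1 : ℝ) ≤ (t.lv : ℝ) := by exact_mod_cast hlv
    linarith
  have h4 := mul_le_mul_of_nonneg_left (WTB_geo t.size) h3
  have h5 : (t.wt : ℝ) = (t.size : ℝ) + 2 * ∑ j ∈ Finset.range t.size,
      (2 * (j : ℝ) + 1) * (WTB_c (j + 1) t : ℝ) := by
    rw [h]
    push_cast
    have e : (BT.size t : ℝ) = t.size := rfl
    rfl
  have h6 : (t.wt : ℝ) + 12 ≤ (t.size : ℝ) + 12 * (t.lv : ℝ) := by
    rw [h5]
    linarith
  exact_mod_cast h6

end LSH.Lin
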